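import Pool.Agent.Lib.MP_9ed307_gt.Main

/-!
# No odd torsion in the first homology of the components of the space of long knots (Q2)

By Budney's theorem every component of the space of long knots is a `K(π, 1)` whose fundamental
group is given by a recursion along the JSJ tree of the knot; `KnotGroup` is this recursion.
Every element of finite order of the abelianization (the first homology of the component) has
an order dividing `2 ^ d`, where `d` is the largest number of nested reversed companions.
-/

namespace Pool.Agent.Results.MP_9ed307_gt.NoOddTorsion

open Pool.Agent.Lib.MP_9ed307_gt

theorem result (G : Type) [Group G] (o : Option (MulAut G)) (d : ℕ) (h : KnotGroup G o d)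
    (x : Abelianization G) (hx : IsOfFinOrder x) : orderOf x ∣ 2 ^ d :=
  torsion_exponent h x hx

end Pool.Agent.Results.MP_9ed307_gt.NoOddTorsion
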