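import Pool.Agent.Lib.MP_9ed307_gt.Main

/-!
# Torsion in the first homology of the components of the space of long knots (Q1)

By Budney's theorem every component of the space of long knots is a `K(π, 1)` whose fundamental
group is given by a recursion along the JSJ tree of the knot; `KnotGroup` is this recursion.
The abelianization (the first homology of the component) has torsion exactly when somewhere in
the tree a symmetry of a hyperbolic piece reverses a companion.
-/

namespace Pool.Agent.Results.MP_9ed307_gt.TorsionCriterion

open Pool.Agent.Lib.MP_9ed307_gt

theorem result (G : Type) [Group G] (o : Option (MulAut G)) (d : ℕ) (h : KnotGroup G o d) :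
    (∃ x : Abelianization G, x ≠ 1 ∧ IsOfFinOrder x) ↔ 0 < d :=
  torsion_iff h

end Pool.Agent.Results.MP_9ed307_gt.TorsionCriterion
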